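import Mathlib
import Pool.Agent.Y582.CR.Meas

set_option autoImplicit false

/-!
# The strong polarized relation with many colours at a cardinal which is not weakly compact
-/

namespace Pool.Agent.Results.MP_c625b5_lc.ManyColours

open Cardinal Pool.Agent.Helper669.Forcing Pool.Agent.Helper669.K Pool.Agent.Y582.CR

/-- If `κ` is measurable in every extension by a `κ`-directed closed forcing notion, then there
is a forcing notion which forces that `κ` is an uncountable regular cardinal which is not weakly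
compact, every regular cardinal above `κ` stays regular and, for EVERY regular cardinal
`lam > κ` other than `κ⁺⁺` (in particular for `lam = κ⁺`) and every set `Θ` of fewer than `κ`
colours, the strong polarized relation `(lam, κ) → (lam, κ)` holds for colourings with values
in `Θ`. -/
theorem result (κ : Cardinal.{0}) (h : IndestructiblyMeasurable κ) :
    ∃ (P : Type) (_ : Preorder P), Nonempty P ∧ ∀ p : P,
      p ∈ StaysRegular P κ ∧ p ∈ fnot (PairsPartition P κ.ord.ToType) ∧
      ∀ lam : Cardinal.{0}, lam.IsRegular → κ < lam → p ∈ StaysRegular P lam ∧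
        (lam ≠ Order.succ (Order.succ κ) → ∀ Θ : Type, #Θ < κ →
          p ∈ PolarizedCol P lam.ord.ToType κ.ord.ToType Θ) := by
  obtain ⟨hκ, h2⟩ := regular_of_measurable h
  have hκ0 := hκ.aleph0_le
  let L : Type := (Order.succ (Order.succ κ)).ord.ToType
  have hs1 : (Order.succ κ).IsRegular := isRegular_succ hκ0
  have hs2 : (Order.succ (Order.succ κ)).IsRegular := isRegular_succ hs1.aleph0_le
  have hLκ : κ ≤ #L := by
    rw [mk_ord_toType]
    exact (Order.le_succ κ).trans (Order.le_succ _)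
  have hKκ : #κ.ord.ToType ≤ κ := (mk_ord_toType κ).le
  have hZ : #(κ.ord.ToType × RP κ.ord.ToType) ≤ κ := by
    rw [mk_prod, lift_id, lift_id]
    exact (mul_le_mul' hKκ (RP.mk_le hκ h2)).trans (mul_eq_self hκ0).le
  obtain ⟨I, e, he⟩ := exists_enum hκ0 L (κ.ord.ToType × RP κ.ord.ToType) (SP κ.ord.ToType)
    κ.ord.ToType hLκ hZ (SP.mk_le hκ h2) hKκ
  obtain ⟨W, hW⟩ := exists_W (L := L) (RP.st (K := κ.ord.ToType)) e
  have hL : ∀ T : Set L, #T ≤ Order.succ κ → ∃ γ, ∀ α ∈ T, α < γ := by
    intro T hT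
    by_contra hcon
    push Not at hcon
    have hunb : IsCofinal T := fun ζ => by
      obtain ⟨β, hβ, h⟩ := hcon ζ
      exact ⟨β, hβ, h⟩
    have hcof := Order.cof_le hunb
    rw [Ordinal.cof_toType, hs2.cof_ord] at hcof
    exact absurd (hcof.trans hT) (not_le.2 (Order.lt_succ _))
  have hR := RP.dirClosed hκ
  have hU : ∀ (α : L) (q : PR (rel W α) × RP κ.ord.ToType),
      q ∈ IsMeasure κ (theU κ κ.ord.ToType (PR (rel W α) × RP κ.ord.ToType)) := by
    intro α q
    exact theU_spec (exists_name (h.2 _ (dirClosed_prod (dirClosed_PR _ e hW hκ α) hR))) q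
  have hst : ∀ a b : RP κ.ord.ToType, a ≤ b → a.st ≤ b.st := fun a b h => h.1
  have hlift : ∀ (r : RP κ.ord.ToType) (s : SP κ.ord.ToType), s ≤ r.st →
      ∃ r' ≤ r, r'.st = s := fun r s hs => RP.exists_lift r s hs
  have hsurj : ∀ s : SP κ.ord.ToType, ∃ r : RP κ.ord.ToType, r.st = s := RP.exists_st
  have hne : Nonempty κ.ord.ToType := by
    rw [← mk_ne_zero_iff, mk_ord_toType]
    exact hκ.pos.ne'
  have hcc := cc_PW _ e hW hκ h2 hKκ (RP.mk_le hκ h2) (SP.mk_le hκ h2)
  refine ⟨PW W × SP κ.ord.ToType, inferInstance, ?_, fun p => ⟨?_, ?_, ?_⟩⟩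
  · obtain ⟨a⟩ := hne
    exact ⟨(PW.mk W ⟨∅, ∅, by simpa using hκ.pos, by simpa using hκ.pos⟩,
      ⟨a, fun _ _ => false, fun _ _ _ _ => by simp, fun _ _ _ => rfl⟩)⟩
  · exact staysRegular_PW _ e hW hκ hR hst hlift hsurj p
  · exact not_pairsPartition hκ h.1 (dirClosed_PW _ e hW hκ) p
  · intro lam hlam hκlam
    refine ⟨staysRegular_of_cc hκ0 hlam hκlam hcc p, fun hne2 Θ hΘ => ?_⟩
    refine polarizedCol_PW _ e hW hκ h2 (RP.mk_le hκ h2) (SP.mk_le hκ h2) hR hU hst hlift hsurj he
      hlam hκlam (fun T hT => ?_) hΘ p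
    rcases lt_or_gt_of_ne hne2 with h3 | h3
    · -- all rows at once
      have h4 : lam ≤ Order.succ κ := Order.lt_succ_iff.1 h3
      obtain ⟨γ, hγ⟩ := hL (⋃ α, T α) (by
        refine Pool.Agent.Helper669.KDelta.small_iUnion hs1.aleph0_le ?_ _ fun α =>
          (hT α).trans (Order.le_succ κ)
        rw [mk_ord_toType]
        exact h4)
      refine ⟨γ, ?_⟩
      have h5 : {α : lam.ord.ToType | ∀ l ∈ T α, l < γ} = Set.univ := by
        rw [Set.eq_univ_iff_forall]
        intro α l hl
        exact hγ l (Set.mem_iUnion.2 ⟨α, hl⟩)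
      rw [h5, mk_univ, mk_ord_toType]
    · choose ξ hξ using fun α => hL (T α) ((hT α).trans (Order.le_succ κ))
      obtain ⟨ξ0, h0⟩ := exists_fiber_full hlam (mk_ord_toType lam).ge
        (by rw [mk_ord_toType]; exact h3) ξ
      refine ⟨ξ0, h0.trans (mk_le_mk_of_subset fun α hα l hl => ?_)⟩
      have hα' : ξ α = ξ0 := hα
      rw [← hα']
      exact hξ α l hl

end Pool.Agent.Results.MP_c625b5_lc.ManyColours
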